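import Pool.Agent.Y298.CA.Stm2
import Pool.Agent.Y298.CD.Grw

/-!
# Upper bounds of the derivatives near a superattracting parameter
-/

set_option autoImplicit false

open Set Filter Metric MeasureTheory Topology

namespace Pool.Agent.Y100.CA

open Pool.Agent.TH279.MD Pool.Agent.Y298.SH Pool.Agent.Y298.SH.CD Pool.Agent.Y298.CA
open Pool.Agent.H712R2 (P)

theorem diffP (d k : ℕ) : Differentiable ℂ (P d k) := Pool.Agent.H713R2.differentiable_P d k

/-- the parameter derivative, one step -/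
theorem derivP_succ (d n : ℕ) (c : ℂ) :
    deriv (P d (n + 1)) c = d * (P d n c) ^ (d - 1) * deriv (P d n) c + 1 := by
  have h : P d (n + 1) = fun c => (P d n c) ^ d + c := by
    funext c; exact Pool.Agent.H712R2.P_succ d n c
  rw [h]
  have h1 : HasDerivAt (P d n) (deriv (P d n) c) c := ((diffP d n) c).hasDerivAt
  exact ((h1.pow d).add (hasDerivAt_id c)).deriv

theorem two : S_TWO := by
  intro d C₁ lam θ B Ca hd hPC c₀ hCE s G k m hs hs1 hzz hG c' hc' hP η ρ' hη hηs hρ hρs hsmall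
    c hc
  have hpass := hPC.pass c₀ hCE
  have hCa := hPC.Ca1
  have hG1 : 1 ≤ G := by
    have h1 := hG 0 (Nat.zero_le _)
    rwa [Pd_zero] at h1
  have hd2 : (2 : ℝ) ≤ d := by exact_mod_cast hd
  obtain ⟨K, hK⟩ : ∃ K : ℝ, K = d * 3 ^ (d - 1) := ⟨_, rfl⟩
  have hK2 : 2 ≤ K := by
    rw [hK]
    have h1 : (1 : ℝ) ≤ 3 ^ (d - 1) := one_le_pow₀ (by norm_num)
    nlinarith
  rw [← hK] at hsmall ⊢
  have hL1 : (1 : ℝ) ≤ (K + 1) ^ m := one_le_pow₀ (by linarith)
  -- differentiability
  have hdf : ∀ (v : ℂ) (n : ℕ), Differentiable ℂ ((f d v)^[n]) := fun v n =>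
    differentiable_fn d v n
  have hcc : ‖c - c'‖ < η := by rwa [mem_ball, dist_eq_norm] at hc
  have hcc0 : ‖c - c₀‖ ≤ s / 2 := by
    calc ‖c - c₀‖ = ‖(c - c') + (c' - c₀)‖ := by congr 1; ring
      _ ≤ ‖c - c'‖ + ‖c' - c₀‖ := norm_add_le _ _
      _ ≤ s / 2 := by linarith
  -- phase one, in the variable
  have hx1 : ∀ j ≤ k, ∀ x ∈ closedBall c ρ', ‖deriv ((f d c)^[j]) x‖ ≤ 2 * G := by
    intro j hj x hx
    have hxs : x ∈ ball c s := by
      rw [mem_closedBall] at hx
      rw [mem_ball]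
      linarith
    have h1 := (hpass c s k hs (by linarith) hzz x hxs j hj).2.2.1
    have h2 := hG j hj
    linarith
  -- phase one, in the parameter
  have hp1 : ∀ j ≤ k, ∀ v : ℂ, ‖v - c₀‖ ≤ s / 2 → ‖deriv (P d (j + 1)) v‖ ≤ 2 * Ca * G := by
    intro j hj v hv
    have h1 : ‖deriv (fun u => P d (j + 1) u - zz d c₀ j) v‖ ≤ (Ca * s * G) / (s / 2) := by
      refine Complex.norm_deriv_le_of_forall_mem_sphere_norm_le (by linarith)
        (((diffP d (j + 1)).sub_const _).diffContOnCl) ?_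
      intro u hu
      rw [mem_sphere, dist_eq_norm] at hu
      have hu0 : ‖u - c₀‖ ≤ s := by
        calc ‖u - c₀‖ = ‖(u - v) + (v - c₀)‖ := by congr 1; ring
          _ ≤ ‖u - v‖ + ‖v - c₀‖ := norm_add_le _ _
          _ ≤ s := by linarith
      have h2 := (hpass u s k hs hu0 hzz u (mem_ball_self hs) j hj).1
      have h3 : P d (j + 1) u = (f d u)^[j] u := congrFun (P_succ_eq hd j) u
      show ‖P d (j + 1) u - zz d c₀ j‖ ≤ _
      rw [h3]
      refine h2.trans ?_
      have h4 := hG j hj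
      have h5 : 0 ≤ Ca * s := by positivity
      exact mul_le_mul_of_nonneg_left h4 h5
    rw [deriv_sub_const] at h1
    refine h1.trans (le_of_eq ?_)
    field_simp
  -- the two orbits at the time `k`
  have hclose : ∀ x ∈ closedBall c ρ',
      ‖(f d c)^[k] x - (f d c')^[k] c'‖ ≤ 2 * G * ρ' + 2 * Ca * G * η := by
    intro x hx
    have h1 : ‖(f d c)^[k] x - (f d c)^[k] c‖ ≤ 2 * G * ‖x - c‖ :=
      Convex.norm_image_sub_le_of_norm_deriv_le (fun y _ => (hdf c k) y)
        (fun y hy => hx1 k le_rfl y hy) (convex_closedBall c ρ') (mem_closedBall_self hρ.le) hx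
    have h2 : ‖P d (k + 1) c - P d (k + 1) c'‖ ≤ 2 * Ca * G * ‖c - c'‖ := by
      refine Convex.norm_image_sub_le_of_norm_deriv_le (s := closedBall c₀ (s / 2))
        (fun y _ => (diffP d (k + 1)) y) (fun y hy => hp1 k le_rfl y ?_)
        (convex_closedBall c₀ (s / 2)) ?_ ?_
      · rwa [mem_closedBall, dist_eq_norm] at hy
      · rw [mem_closedBall, dist_eq_norm]; linarith
      · rw [mem_closedBall, dist_eq_norm]; exact hcc0
    have e1 : P d (k + 1) c = (f d c)^[k] c := congrFun (P_succ_eq hd k) c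
    have e2 : P d (k + 1) c' = (f d c')^[k] c' := congrFun (P_succ_eq hd k) c'
    rw [e1, e2] at h2
    rw [mem_closedBall, dist_eq_norm] at hx
    calc ‖(f d c)^[k] x - (f d c')^[k] c'‖
        = ‖((f d c)^[k] x - (f d c)^[k] c) + ((f d c)^[k] c - (f d c')^[k] c')‖ := by
          congr 1; ring
      _ ≤ _ := norm_add_le _ _
      _ ≤ 2 * G * ‖x - c‖ + 2 * Ca * G * ‖c - c'‖ := add_le_add h1 h2
      _ ≤ _ := by
        have g1 : 2 * G * ‖x - c‖ ≤ 2 * G * ρ' := mul_le_mul_of_nonneg_left hx (by linarith)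
        have g2 : 2 * Ca * G * ‖c - c'‖ ≤ 2 * Ca * G * η :=
          mul_le_mul_of_nonneg_left hcc.le (by positivity)
        linarith
  obtain ⟨E0, hE0⟩ : ∃ E0 : ℝ, E0 = 2 * G * ρ' + 2 * Ca * G * η := ⟨_, rfl⟩
  rw [← hE0] at hsmall hclose
  have hE00 : 0 ≤ E0 := by rw [hE0]; positivity
  have hy' : ∀ i, ‖(f d c')^[i] c'‖ ≤ 2 := by
    intro i
    have h1 := hP (i + 1)
    have e2 : P d (i + 1) c' = (f d c')^[i] c' := congrFun (P_succ_eq hd i) c'
    rwa [e2] at h1
  have hone : ∀ i ≤ m, (K + 1) ^ i * (E0 + η) ≤ 1 := by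
    intro i hi
    refine le_trans ?_ hsmall
    rw [mul_comm]
    exact mul_le_mul_of_nonneg_left (pow_le_pow_right₀ (by linarith) hi) (by linarith)
  have hphase : ∀ x ∈ closedBall c ρ', ∀ i ≤ m,
      ‖(f d c)^[k + i] x - (f d c')^[k + i] c'‖ + η ≤ (K + 1) ^ i * (E0 + η) ∧
      ‖(f d c)^[k + i] x‖ ≤ 3 := by
    intro x hx i
    induction i with
    | zero =>
      intro _
      rw [add_zero, pow_zero, one_mul]
      have h1 := hclose x hx
      have h2 := hone 0 (Nat.zero_le _)
      rw [pow_zero, one_mul] at h2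
      refine ⟨by linarith, ?_⟩
      have h3 : ‖(f d c)^[k] x‖ ≤ ‖(f d c)^[k] x - (f d c')^[k] c'‖ + ‖(f d c')^[k] c'‖ := by
        calc ‖(f d c)^[k] x‖ = ‖((f d c)^[k] x - (f d c')^[k] c') + (f d c')^[k] c'‖ := by
              congr 1; ring
          _ ≤ _ := norm_add_le _ _
      have h4 := hy' k
      linarith
    | succ i ih =>
      intro hi
      obtain ⟨h1, h2⟩ := ih (by omega)
      have h3 := hone (i + 1) hi
      have e1 : (f d c)^[k + (i + 1)] x = ((f d c)^[k + i] x) ^ d + c := by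
        rw [← add_assoc, Function.iterate_succ_apply']; rfl
      have e2 : (f d c')^[k + (i + 1)] c' = ((f d c')^[k + i] c') ^ d + c' := by
        rw [← add_assoc, Function.iterate_succ_apply']; rfl
      have h4 : ‖(f d c)^[k + (i + 1)] x - (f d c')^[k + (i + 1)] c'‖ ≤
          K * ‖(f d c)^[k + i] x - (f d c')^[k + i] c'‖ + η := by
        rw [e1, e2]
        calc ‖((f d c)^[k + i] x) ^ d + c - (((f d c')^[k + i] c') ^ d + c')‖
            = ‖(((f d c)^[k + i] x) ^ d - ((f d c')^[k + i] c') ^ d) + (c - c')‖ := by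
              congr 1; ring
          _ ≤ _ := norm_add_le _ _
          _ ≤ _ := by
            have g1 := pow_sub_le ((f d c)^[k + i] x) ((f d c')^[k + i] c') h2
              ((hy' (k + i)).trans (by norm_num)) d
            rw [← hK] at g1
            linarith
      have h5 : ‖(f d c)^[k + (i + 1)] x - (f d c')^[k + (i + 1)] c'‖ + η ≤
          (K + 1) ^ (i + 1) * (E0 + η) := by
        rw [pow_succ]
        have g1 : (K + 1) * (‖(f d c)^[k + i] x - (f d c')^[k + i] c'‖ + η) ≤
            (K + 1) * ((K + 1) ^ i * (E0 + η)) := mul_le_mul_of_nonneg_left h1 (by linarith)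
        have g2 := norm_nonneg ((f d c)^[k + i] x - (f d c')^[k + i] c')
        nlinarith
      refine ⟨h5, ?_⟩
      have h6 : ‖(f d c)^[k + (i + 1)] x‖ ≤
          ‖(f d c)^[k + (i + 1)] x - (f d c')^[k + (i + 1)] c'‖ + ‖(f d c')^[k + (i + 1)] c'‖ := by
        calc ‖(f d c)^[k + (i + 1)] x‖ = ‖((f d c)^[k + (i + 1)] x -
              (f d c')^[k + (i + 1)] c') + (f d c')^[k + (i + 1)] c'‖ := by
              congr 1; ring
          _ ≤ _ := norm_add_le _ _
      have h7 := hy' (k + (i + 1))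
      linarith
  -- derivatives in phase two
  have hpow3 : ∀ y : ℂ, ‖y‖ ≤ 3 → (d : ℝ) * ‖y‖ ^ (d - 1) ≤ K := by
    intro y hy
    rw [hK]
    gcongr
  have hx2 : ∀ x ∈ closedBall c ρ', ∀ i ≤ m,
      ‖deriv ((f d c)^[k + i]) x‖ ≤ 2 * G * (K + 1) ^ i := by
    intro x hx i
    induction i with
    | zero =>
      intro _
      rw [add_zero, pow_zero, mul_one]
      exact hx1 k le_rfl x hx
    | succ i ih =>
      intro hi
      have h1 := ih (by omega)
      have h2 := hpow3 _ (hphase x hx i (by omega)).2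
      have e : k + (i + 1) = 1 + (k + i) := by ring
      rw [e, deriv_iter_add, Function.iterate_one, deriv_f, norm_mul, norm_mul, norm_pow,
        Complex.norm_natCast, pow_succ]
      calc (d : ℝ) * ‖(f d c)^[k + i] x‖ ^ (d - 1) * ‖deriv ((f d c)^[k + i]) x‖
          ≤ K * (2 * G * (K + 1) ^ i) := mul_le_mul h2 h1 (norm_nonneg _) (by linarith)
        _ ≤ (K + 1) * (2 * G * (K + 1) ^ i) := by
          apply mul_le_mul_of_nonneg_right (by linarith)
          positivity
        _ = _ := by ring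
  have hq2 : ∀ i ≤ m, ‖deriv (P d (k + i + 1)) c‖ + 1 ≤ (2 * Ca * G + 1) * (K + 1) ^ i := by
    intro i
    induction i with
    | zero =>
      intro _
      rw [add_zero, pow_zero, mul_one]
      have := hp1 k le_rfl c hcc0
      linarith
    | succ i ih =>
      intro hi
      have h1 := ih (by omega)
      have h2 := hpow3 _ (hphase c (mem_closedBall_self hρ.le) i (by omega)).2
      have e : P d (k + i + 1) c = (f d c)^[k + i] c := congrFun (P_succ_eq hd (k + i)) c
      have e3 : k + (i + 1) + 1 = (k + i + 1) + 1 := by ring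
      rw [e3, derivP_succ, e, pow_succ]
      have h3 : ‖(d : ℂ) * ((f d c)^[k + i] c) ^ (d - 1) * deriv (P d (k + i + 1)) c + 1‖ ≤
          K * ‖deriv (P d (k + i + 1)) c‖ + 1 := by
        refine (norm_add_le _ _).trans ?_
        rw [norm_mul, norm_mul, norm_pow, Complex.norm_natCast, norm_one]
        have := mul_le_mul_of_nonneg_right h2 (norm_nonneg (deriv (P d (k + i + 1)) c))
        linarith
      have g1 : (K + 1) * (‖deriv (P d (k + i + 1)) c‖ + 1) ≤
          (K + 1) * ((2 * Ca * G + 1) * (K + 1) ^ i) := mul_le_mul_of_nonneg_left h1 (by linarith)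
      have g2 := norm_nonneg (deriv (P d (k + i + 1)) c)
      nlinarith
  -- conclusion
  have hmono : ∀ i ≤ m, (K + 1) ^ i ≤ (K + 1) ^ m := fun i hi =>
    pow_le_pow_right₀ (by linarith) hi
  intro j hj
  rcases le_total j k with h | h
  · refine ⟨fun x hx => (hx1 j h x hx).trans ?_, (hp1 j h c hcc0).trans ?_⟩
    · have : 0 ≤ 2 * G := by linarith
      exact le_mul_of_one_le_right this hL1
    · have : 0 ≤ 2 * Ca * G := by positivity
      have h2 : 2 * Ca * G + 1 ≤ (2 * Ca * G + 1) * (K + 1) ^ m :=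
        le_mul_of_one_le_right (by linarith) hL1
      linarith
  · obtain ⟨i, rfl⟩ := Nat.exists_eq_add_of_le h
    have hi : i ≤ m := by omega
    refine ⟨fun x hx => (hx2 x hx i hi).trans ?_, ?_⟩
    · exact mul_le_mul_of_nonneg_left (hmono i hi) (by linarith)
    · have h1 := hq2 i hi
      have h2 : (2 * Ca * G + 1) * (K + 1) ^ i ≤ (2 * Ca * G + 1) * (K + 1) ^ m :=
        mul_le_mul_of_nonneg_left (hmono i hi) (by positivity)
      linarith

end Pool.Agent.Y100.CA
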